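import Mathlib
import Pool.Agent.R844.HT
import Pool.Agent.R844.HT2
import Pool.Agent.R844.HT3
import Pool.Agent.R844.HTSpec

/-!
# MP_6dcedf_co : the upper Houdré–Tetali inequality fails for simple random walks on graphs

There is no absolute constant `C` with `φ_{1/2}(G) ≤ C √(λ₂(G))` for all finite connected simple
graphs `G`.
-/

open Finset Matrix

namespace Pool.Agent.Results.MP_6dcedf_co.HoudreTetaliFails

/-- The transition matrix of the simple random walk on `G`: `P(v,u) = 1/deg v` if `v ~ u`, and `0`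
otherwise. -/
noncomputable def walk {V : Type} [Fintype V] (G : SimpleGraph V) [DecidableRel G.Adj] :
    Matrix V V ℝ :=
  fun v u => if G.Adj v u then 1 / (G.degree v : ℝ) else 0

/-- The stationary distribution `π(v) = deg v / (2|E|)`. -/
noncomputable def stat {V : Type} [Fintype V] [DecidableEq V] (G : SimpleGraph V)
    [DecidableRel G.Adj] (v : V) : ℝ :=
  (G.degree v : ℝ) / (2 * (G.edgeFinset.card : ℝ))

/-- `φ_p(P)`: the infimum (a minimum over a finite family) over nonempty `S` with `π(S) ≤ 1/2` of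
`(∑_{v∈S} π(v) (∑_{u∉S} P(v,u))^p) / π(S)`. -/
noncomputable def phi {V : Type} [Fintype V] [DecidableEq V] (p : ℝ) (P : Matrix V V ℝ)
    (π : V → ℝ) : ℝ :=
  sInf {x : ℝ | ∃ S : Finset V, S.Nonempty ∧ ∑ v ∈ S, π v ≤ 1 / 2 ∧
    x = (∑ v ∈ S, π v * (∑ u ∈ Sᶜ, P v u) ^ p) / ∑ v ∈ S, π v}

/-- The second smallest eigenvalue of `I - P`, eigenvalues being the roots of the characteristic
polynomial, counted with multiplicity and sorted increasingly. -/
noncomputable def lambda2 {V : Type} [Fintype V] [DecidableEq V] (P : Matrix V V ℝ) : ℝ :=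
  ((1 - P).charpoly.roots.sort (· ≤ ·)).getD 1 0

open Pool.Agent.R844.HT Pool.Agent.R844.HTSpec

section

variable {n N : ℕ} [NeZero n] [NeZero N]

lemma walk_eq (v w : ZMod n × ZMod N) :
    walk (htG n N) v w = if (htG n N).Adj v w then 1 / (Dl n N : ℝ) else 0 := by
  unfold walk
  rw [degree_eq]

lemma Dl_pos (hn2 : 2 ≤ n) : (0 : ℝ) < Dl n N := by
  have hNpos : 0 < N := Nat.pos_of_ne_zero (NeZero.ne N)
  have hNle := N_le_Dl (n := n) (N := N) hn2
  exact_mod_cast (by omega : 0 < Dl n N)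

lemma twice_edges :
    (2 : ℝ) * ((htG n N).edgeFinset.card : ℝ) = (n * N : ℝ) * Dl n N := by
  have h := (htG n N).sum_degrees_eq_twice_card_edges
  simp only [degree_eq, sum_const, card_univ, Fintype.card_prod, ZMod.card, smul_eq_mul] at h
  exact_mod_cast h.symm

lemma stat_eq (hn2 : 2 ≤ n) (v : ZMod n × ZMod N) : stat (htG n N) v = 1 / (n * N : ℝ) := by
  have hD := Dl_pos (N := N) hn2
  have hn : (n : ℝ) ≠ 0 := by exact_mod_cast NeZero.ne n
  have hN : (N : ℝ) ≠ 0 := by exact_mod_cast NeZero.ne N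
  unfold stat
  rw [degree_eq, twice_edges]
  field_simp

lemma out_eq (S : Finset (ZMod n × ZMod N)) (v : ZMod n × ZMod N) :
    ∑ u ∈ Sᶜ, walk (htG n N) v u = (ee S v : ℝ) / Dl n N := by
  have h1 : ∑ u ∈ Sᶜ, walk (htG n N) v u
      = ∑ u ∈ Sᶜ, (if (htG n N).Adj v u then 1 / (Dl n N : ℝ) else 0) :=
    sum_congr rfl fun u _ => walk_eq v u
  rw [h1, ← sum_filter, sum_const, nsmul_eq_mul, mul_one_div]
  congr 2
  unfold ee
  congr 1
  ext w
  simp

lemma phi_ge (m : ℕ) (hn : n = 2 ^ m) (hN : N = 8 ^ m) (hm : 2 ≤ m) :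
    ((m : ℝ) - 1) / (1584 * 2 ^ m) ≤ phi (1 / 2) (walk (htG n N)) (stat (htG n N)) := by
  have hn2 : 2 ≤ n := by
    rw [hn]
    calc 2 = 2 ^ 1 := by norm_num
      _ ≤ 2 ^ m := Nat.pow_le_pow_right (by norm_num) (by omega)
  have hnr : (0 : ℝ) < n := by exact_mod_cast (by omega : 0 < n)
  have hn2r : (2 : ℝ) ≤ n := by exact_mod_cast hn2
  have hNpos : 0 < N := Nat.pos_of_ne_zero (NeZero.ne N)
  have hNr : (0 : ℝ) < N := by exact_mod_cast hNpos
  have hN1 : (1 : ℝ) ≤ N := by exact_mod_cast hNpos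
  unfold phi
  apply le_csInf
  · refine ⟨_, {(0, 0)}, singleton_nonempty _, ?_, rfl⟩
    rw [sum_singleton, stat_eq hn2, one_div_le (by positivity) (by norm_num)]
    norm_num
    nlinarith
  · rintro x ⟨S, hSne, hS, rfl⟩
    have hScard : (0 : ℝ) < S.card := by exact_mod_cast hSne.card_pos
    have hpi : ∑ v ∈ S, stat (htG n N) v = S.card * (1 / (n * N : ℝ)) := by
      rw [sum_congr rfl (fun v _ => stat_eq hn2 v), sum_const, nsmul_eq_mul]
    rw [hpi] at hS ⊢
    have hS' : 2 * S.card ≤ n * N := by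
      rw [mul_one_div, div_le_iff₀ (by positivity)] at hS
      have : (2 : ℝ) * S.card ≤ n * N := by linarith
      exact_mod_cast this
    have hcost := cost_lower m hn hN hm S hS'
    have hnum : ∑ v ∈ S, stat (htG n N) v * (∑ u ∈ Sᶜ, walk (htG n N) v u) ^ ((1 : ℝ) / 2)
        = (1 / (n * N : ℝ)) * ∑ v ∈ S, √((ee S v : ℝ) / Dl n N) := by
      rw [mul_sum]
      refine sum_congr rfl fun v _ => ?_
      rw [stat_eq hn2, out_eq, Real.sqrt_eq_rpow]
    rw [hnum]
    have hn' : (n : ℝ) = 2 ^ m := by rw [hn]; push_cast; ring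
    rw [le_div_iff₀ (by positivity)]
    calc ((m : ℝ) - 1) / (1584 * 2 ^ m) * (S.card * (1 / (n * N : ℝ)))
        = (1 / (n * N : ℝ)) * (((m : ℝ) - 1) * S.card / (1584 * n)) := by
          rw [hn']; ring
      _ ≤ (1 / (n * N : ℝ)) * ∑ v ∈ S, √((ee S v : ℝ) / Dl n N) :=
          mul_le_mul_of_nonneg_left hcost (by positivity)

lemma lambda2_le (m : ℕ) (hn : n = 2 ^ m) (hm : 3 ≤ m) :
    lambda2 (walk (htG n N)) ≤ 512 * m / 4 ^ m := by
  have hn2 : 2 ≤ n := by
    rw [hn]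
    calc 2 = 2 ^ 1 := by norm_num
      _ ≤ 2 ^ m := Nat.pow_le_pow_right (by norm_num) (by omega)
  have hnr : (0 : ℝ) < n := by exact_mod_cast (by omega : 0 < n)
  have hNpos : 0 < N := Nat.pos_of_ne_zero (NeZero.ne N)
  have hNr : (0 : ℝ) < N := by exact_mod_cast hNpos
  have hD := Dl_pos (N := N) hn2
  have hn8 : n = 8 * 2 ^ (m - 3) := by
    rw [hn, show (8 : ℕ) = 2 ^ 3 by norm_num, ← pow_add]; congr 1; omega
  set q := 2 ^ (m - 3) with hq
  have htau := tau_sq q hn8
  set g : ZMod n × ZMod N → ℝ := fun v => tau (4 * q) v.1 with hg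
  have hgg : g ⬝ᵥ g = N * ∑ i : ZMod n, tau (4 * q) i ^ 2 := by
    unfold dotProduct
    rw [Fintype.sum_prod_type, mul_sum]
    refine sum_congr rfl fun i _ => ?_
    simp only [hg]
    rw [sum_const, card_univ, ZMod.card, nsmul_eq_mul]
    ring
  have hggpos : 0 < g ⬝ᵥ g := by
    rw [hgg]
    have : 0 < ∑ i : ZMod n, tau (4 * q) i ^ 2 := lt_of_lt_of_le (by positivity) htau
    positivity
  unfold lambda2
  refine second_root_le (1 - walk (htG n N)) ?_ ?_ g ?_ ?_ _ (by positivity) ?_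
  · -- Hermitian
    ext v w
    simp only [conjTranspose_apply, Matrix.sub_apply, walk_eq, star_trivial, Matrix.one_apply,
      (htG n N).adj_comm w v]
    by_cases h : v = w
    · subst h; rfl
    · rw [if_neg h, if_neg (Ne.symm h)]
  · -- kills constants
    ext v
    rw [sub_mulVec, one_mulVec]
    have h1 : (walk (htG n N) *ᵥ 1) v = 1 := by
      have h2 : (walk (htG n N) *ᵥ 1) v = ∑ w, walk (htG n N) v w := by
        simp [mulVec, dotProduct]
      rw [h2, sum_congr rfl (fun w _ => walk_eq v w), ← sum_filter, sum_const, nsmul_eq_mul]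
      have h3 : (univ.filter (fun w => (htG n N).Adj v w)).card = Dl n N := by
        rw [← degree_eq v, ← SimpleGraph.card_neighborFinset_eq_degree,
          SimpleGraph.neighborFinset_eq_filter]
      rw [h3]
      field_simp
    simp [h1]
  · intro h
    rw [h] at hggpos
    simp at hggpos
  · rw [Fintype.sum_prod_type]
    simp only [hg, sum_const, card_univ, ZMod.card, nsmul_eq_mul]
    rw [← mul_sum, tau_sum, mul_zero]
  · have h1 : g ⬝ᵥ ((1 - walk (htG n N)) *ᵥ g) ≤ 4 * n * N * m := by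
      refine le_trans (le_of_eq ?_) (dirichlet (n := n) (N := N) m (4 * q) hn (by omega))
      unfold dotProduct
      refine sum_congr rfl fun v _ => ?_
      rw [sub_mulVec, one_mulVec]
      simp only [Pi.sub_apply, hg]
      congr 2
      unfold mulVec dotProduct
      refine sum_congr rfl fun w _ => ?_
      show walk (htG n N) v w * tau (4 * q) w.1 = _
      rw [walk_eq]
    refine h1.trans ?_
    rw [hgg]
    have hn' : (n : ℝ) = 2 ^ m := by rw [hn]; push_cast; ring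
    have h4 : (4 : ℝ) ^ m = n ^ 2 := by rw [hn', ← pow_mul, mul_comm m 2, pow_mul]; norm_num
    calc (4 * n * N * m : ℝ) = (512 * m / n ^ 2) * (N * ((n : ℝ) ^ 3 / 128)) := by
          field_simp; ring
      _ ≤ (512 * m / n ^ 2) * (N * ∑ i : ZMod n, tau (4 * q) i ^ 2) := by gcongr
      _ = _ := by rw [h4]

end

/-- The quantitative family. -/
theorem family (m : ℕ) (hm : 3 ≤ m) :
    ∃ (V : Type) (_ : Fintype V) (_ : DecidableEq V) (G : SimpleGraph V) (_ : DecidableRel G.Adj),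
      G.Connected ∧ Fintype.card V = 16 ^ m ∧ (∃ d : ℕ, G.IsRegularOfDegree d) ∧
      ((m : ℝ) - 1) / (1584 * 2 ^ m) ≤ phi (1 / 2) (walk G) (stat G) ∧
      lambda2 (walk G) ≤ 512 * m / 4 ^ m := by
  have : NeZero (2 ^ m) := ⟨by positivity⟩
  have : NeZero (8 ^ m) := ⟨by positivity⟩
  have hn2 : 2 ≤ 2 ^ m := by
    calc 2 = 2 ^ 1 := by norm_num
      _ ≤ 2 ^ m := Nat.pow_le_pow_right (by norm_num) (by omega)
  refine ⟨ZMod (2 ^ m) × ZMod (8 ^ m), inferInstance, inferInstance, htG (2 ^ m) (8 ^ m),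
    inferInstance, connected hn2, ?_, ⟨Dl (2 ^ m) (8 ^ m), fun v => degree_eq v⟩,
    phi_ge m rfl rfl (by omega), lambda2_le m rfl hm⟩
  rw [Fintype.card_prod, ZMod.card, ZMod.card, ← mul_pow]
  norm_num

/-- **The upper Houdré–Tetali inequality fails for simple random walks on graphs.** -/
theorem result :
    (¬ ∃ C : ℝ, ∀ (V : Type) [Fintype V] [DecidableEq V] (G : SimpleGraph V)
        [DecidableRel G.Adj], G.Connected → 2 ≤ Fintype.card V →
        phi (1 / 2) (walk G) (stat G) ≤ C * √(lambda2 (walk G))) ∧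
    (∀ m : ℕ, 3 ≤ m →
      ∃ (V : Type) (_ : Fintype V) (_ : DecidableEq V) (G : SimpleGraph V)
        (_ : DecidableRel G.Adj),
        G.Connected ∧ Fintype.card V = 16 ^ m ∧ (∃ d : ℕ, G.IsRegularOfDegree d) ∧
        ((m : ℝ) - 1) / (1584 * 2 ^ m) ≤ phi (1 / 2) (walk G) (stat G) ∧
        lambda2 (walk G) ≤ 512 * m / 4 ^ m) := by
  refine ⟨?_, family⟩
  rintro ⟨C, hC⟩
  -- replace `C` by a positive constant
  obtain ⟨m₀, hm₀⟩ := exists_nat_gt ((72864 * |C|) ^ 2)
  set m := m₀ + 3 with hm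
  obtain ⟨V, i1, i2, G, i3, hconn, hcard, -, hphi, hlam⟩ := family m (by omega)
  have hcard2 : 2 ≤ Fintype.card V := by
    rw [hcard]
    calc 2 ≤ 16 ^ 1 := by norm_num
      _ ≤ 16 ^ m := Nat.pow_le_pow_right (by norm_num) (by omega)
  have h1 := hC V G hconn hcard2
  have hmr : (3 : ℝ) ≤ m := by rw [hm]; push_cast; linarith [(Nat.cast_nonneg m₀ : (0 : ℝ) ≤ m₀)]
  have hm0r : (0 : ℝ) < m := by linarith
  have h2m : (0 : ℝ) < 2 ^ m := by positivity
  have h2 : √(lambda2 (walk G)) ≤ 23 * √m / 2 ^ m := by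
    have e1 : (512 * m / 4 ^ m : ℝ) ≤ (23 * √m / 2 ^ m) ^ 2 := by
      rw [div_pow, mul_pow, Real.sq_sqrt hm0r.le, ← pow_mul, mul_comm m 2, pow_mul]
      norm_num
      gcongr
      norm_num
    calc √(lambda2 (walk G)) ≤ √(512 * m / 4 ^ m) := Real.sqrt_le_sqrt hlam
      _ ≤ √((23 * √m / 2 ^ m) ^ 2) := Real.sqrt_le_sqrt e1
      _ = 23 * √m / 2 ^ m := Real.sqrt_sq (by positivity)
  have h3 : C * √(lambda2 (walk G)) ≤ |C| * (23 * √m / 2 ^ m) := by
    calc C * √(lambda2 (walk G)) ≤ |C| * √(lambda2 (walk G)) :=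
          mul_le_mul_of_nonneg_right (le_abs_self C) (Real.sqrt_nonneg _)
      _ ≤ _ := mul_le_mul_of_nonneg_left h2 (abs_nonneg C)
  have h4 : ((m : ℝ) - 1) / (1584 * 2 ^ m) ≤ |C| * (23 * √m / 2 ^ m) := hphi.trans (h1.trans h3)
  have h5 : ((m : ℝ) - 1) ≤ 36432 * |C| * √m := by
    rw [div_le_iff₀ (by positivity)] at h4
    calc ((m : ℝ) - 1) ≤ |C| * (23 * √m / 2 ^ m) * (1584 * 2 ^ m) := h4
      _ = 36432 * |C| * √m := by field_simp; ring
  have h6 : (m : ℝ) ≤ 72864 * |C| * √m := by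
    have : (m : ℝ) / 2 ≤ m - 1 := by linarith
    linarith
  have hsq : √(m : ℝ) * √m = m := Real.mul_self_sqrt hm0r.le
  have hspos : 0 < √(m : ℝ) := Real.sqrt_pos.2 hm0r
  have h7 : √(m : ℝ) ≤ 72864 * |C| := by
    by_contra hcon
    push Not at hcon
    nlinarith
  have h8 : (m : ℝ) ≤ (72864 * |C|) ^ 2 := by
    rw [← hsq]
    nlinarith [abs_nonneg C]
  have h9 : (m₀ : ℝ) ≤ m := by rw [hm]; push_cast; linarith
  linarith

end Pool.Agent.Results.MP_6dcedf_co.HoudreTetaliFails
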